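import Mathlib

/-!
Countable partitions of `ℝ^d` (sup metric) into sets of strict pairwise bound `1` such that every
point lies in the closures of at most two members.  Each relatively open cell of the unit cubical
grid is cut into countably many concentric shells.
-/

namespace Pool.Agent.Results.MP_671186_gt.Shells

open Set

/-- The cell of the unit cubical grid containing `x`: integer parts, and which coordinates are
integers. -/
noncomputable def cell {d : ℕ} (x : Fin d → ℝ) : Fin d → ℤ × Bool :=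
  fun i => (⌊x i⌋, decide (x i = ⌊x i⌋))

/-- A continuous function which is positive on the cell `c` and vanishes on its boundary. -/
noncomputable def bump {d : ℕ} (c : Fin d → ℤ × Bool) (y : Fin d → ℝ) : ℝ :=
  ∏ i, if (c i).2 = true then 1 else (y i - (c i).1) * ((c i).1 + 1 - y i)

/-- cell and shell number -/
noncomputable def key {d : ℕ} (x : Fin d → ℝ) : (Fin d → ℤ × Bool) × ℕ :=
  (cell x, ⌊1 / bump (cell x) x⌋₊)

lemma bump_cont {d : ℕ} (c : Fin d → ℤ × Bool) : Continuous (bump c) := by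
  unfold bump
  refine continuous_finset_prod _ fun i _ => ?_
  split_ifs
  · exact continuous_const
  · fun_prop

lemma bump_pos {d : ℕ} (x : Fin d → ℝ) : 0 < bump (cell x) x := by
  unfold bump
  refine Finset.prod_pos fun i _ => ?_
  split_ifs with h
  · exact one_pos
  · simp only [cell, decide_eq_true_eq] at h ⊢
    have h1 := Int.floor_le (x i)
    have h2 := Int.lt_floor_add_one (x i)
    have h3 : (⌊x i⌋ : ℝ) < x i := lt_of_le_of_ne h1 (Ne.symm h)
    exact mul_pos (by linarith) (by linarith)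

lemma closure_key {d : ℕ} (c : Fin d → ℤ × Bool) (k : ℕ) (p : Fin d → ℝ)
    (hp : p ∈ closure (key ⁻¹' {(c, k)})) :
    c = cell p ∧ (k = ⌊1 / bump (cell p) p⌋₊ ∨ k = ⌊1 / bump (cell p) p⌋₊ - 1) := by
  let S : Set (Fin d → ℝ) := {y | (∀ i, ((c i).1 : ℝ) ≤ y i ∧ y i ≤ (c i).1 + 1 ∧
      ((c i).2 = true → y i = (c i).1)) ∧ (k : ℝ) * bump c y ≤ 1 ∧ 1 ≤ (k + 1) * bump c y}
  have hS : IsClosed S := by
    have hb := bump_cont c
    simp only [S, setOf_and, setOf_forall]
    refine IsClosed.inter (isClosed_iInter fun i => IsClosed.inter ?_ (IsClosed.inter ?_ ?_))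
      (IsClosed.inter ?_ ?_)
    · exact isClosed_le continuous_const (continuous_apply i)
    · exact isClosed_le (continuous_apply i) continuous_const
    · exact isClosed_iInter fun _ => isClosed_eq (continuous_apply i) continuous_const
    · exact isClosed_le (by fun_prop) continuous_const
    · exact isClosed_le continuous_const (by fun_prop)
  have hsub : key ⁻¹' {(c, k)} ⊆ S := by
    intro y hy
    simp only [mem_preimage, mem_singleton_iff, key, Prod.mk.injEq] at hy
    obtain ⟨rfl, rfl⟩ := hy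
    have hpos := bump_pos y
    refine ⟨fun i => ⟨Int.floor_le _, (Int.lt_floor_add_one _).le, ?_⟩, ?_, ?_⟩
    · simp [cell]
    · have := Nat.floor_le (a := 1 / bump (cell y) y) (by positivity)
      rwa [le_div_iff₀ hpos] at this
    · have := (Nat.lt_floor_add_one (1 / bump (cell y) y)).le
      rwa [div_le_iff₀ hpos] at this
  obtain ⟨h1, h2, h3⟩ := closure_minimal hsub hS hp
  have hne : bump c p ≠ 0 := by
    intro h
    rw [h] at h3
    norm_num at h3
  have hc : c = cell p := by
    funext i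
    obtain ⟨a1, a2, a3⟩ := h1 i
    have hf := Finset.prod_ne_zero_iff.mp hne i (Finset.mem_univ i)
    by_cases hb : (c i).2 = true
    · have e := a3 hb
      have hfl : ⌊p i⌋ = (c i).1 := by rw [e]; simp
      refine Prod.ext hfl.symm ?_
      simp only [cell, hb, hfl]
      simp [e]
    · rw [if_neg hb] at hf
      have b1 : p i - (c i).1 ≠ 0 := left_ne_zero_of_mul hf
      have b2 : ((c i).1 : ℝ) + 1 - p i ≠ 0 := right_ne_zero_of_mul hf
      have hfl : ⌊p i⌋ = (c i).1 := by
        rw [Int.floor_eq_iff]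
        exact ⟨a1, lt_of_le_of_ne a2 (fun h => b2 (by linarith))⟩
      refine Prod.ext hfl.symm ?_
      simp only [cell, hfl]
      have : ¬ p i = (c i).1 := fun h => b1 (by linarith)
      simp [this, hb]
  refine ⟨hc, ?_⟩
  subst hc
  have hpos := bump_pos p
  have e1 : (k : ℝ) ≤ 1 / bump (cell p) p := by rwa [le_div_iff₀ hpos]
  have e2 : 1 / bump (cell p) p ≤ ((k + 1 : ℕ) : ℝ) := by
    rw [div_le_iff₀ hpos]; push_cast; exact h3
  have f1 : k ≤ ⌊1 / bump (cell p) p⌋₊ := Nat.le_floor e1
  have f2 : ⌊1 / bump (cell p) p⌋₊ ≤ k + 1 := Nat.floor_le_of_le e2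
  omega

theorem exists_partition (d : ℕ) :
    ∃ P : Set (Set (Fin d → ℝ)), Setoid.IsPartition P ∧ P.Countable ∧
      (∀ X ∈ P, ∀ x ∈ X, ∀ y ∈ X, dist x y < 1) ∧
      ∀ p, {X | X ∈ P ∧ p ∈ closure X}.encard ≤ 2 := by
  refine ⟨(Setoid.ker (key (d := d))).classes, Setoid.isPartition_classes _, ?_, ?_, ?_⟩
  · refine (countable_range fun q : (Fin d → ℤ × Bool) × ℕ => key ⁻¹' {q}).mono ?_
    rintro X ⟨y, rfl⟩
    exact ⟨key y, by ext x; simp [Setoid.ker_def]⟩
  · rintro X ⟨z, rfl⟩ x hx y hy
    have hxy : key x = key y := (Setoid.ker_def.mp hx).trans (Setoid.ker_def.mp hy).symm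
    have hc : cell x = cell y := congrArg Prod.fst hxy
    rw [dist_pi_lt_iff one_pos]
    intro i
    have : ⌊x i⌋ = ⌊y i⌋ := congrArg Prod.fst (congrFun hc i)
    rw [Real.dist_eq]
    exact Int.abs_sub_lt_one_of_floor_eq_floor this
  · intro p
    have hsub : {X | X ∈ (Setoid.ker (key (d := d))).classes ∧ p ∈ closure X} ⊆
        {key ⁻¹' {(cell p, ⌊1 / bump (cell p) p⌋₊)},
          key ⁻¹' {(cell p, ⌊1 / bump (cell p) p⌋₊ - 1)}} := by
      rintro X ⟨⟨y, rfl⟩, hp⟩
      have e : {x | (Setoid.ker key) x y} = key ⁻¹' {((key y).1, (key y).2)} := by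
        ext x; simp [Setoid.ker_def]
      rw [e] at hp ⊢
      obtain ⟨h1, h2 | h2⟩ := closure_key _ _ p hp
      · left; rw [h1, h2]
      · right; rw [h1, h2]; rfl
    refine (encard_le_encard hsub).trans ?_
    refine (encard_insert_le _ _).trans ?_
    rw [encard_singleton]
    norm_num

/-- (1) For every `d` there is a countable partition of `ℝ^d` (sup metric) whose members have
strict pairwise bound `1` and in which every point lies in the closures of at most two members.
(2) Hence the statement of Q1 fails in every dimension `d ≥ 2`. -/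
theorem result :
    (∀ d : ℕ, ∃ P : Set (Set (Fin d → ℝ)), Setoid.IsPartition P ∧ P.Countable ∧
      (∀ X ∈ P, ∀ x ∈ X, ∀ y ∈ X, dist x y < 1) ∧
      ∀ p, {X | X ∈ P ∧ p ∈ closure X}.encard ≤ 2) ∧
    (∀ d : ℕ, 2 ≤ d → ¬ ∀ (P : Set (Set (Fin d → ℝ))) (D : ℝ) (α : Fin d → ℝ),
      Setoid.IsPartition P → 0 < D → (∀ X ∈ P, ∀ x ∈ X, ∀ y ∈ X, dist x y < D) →
      {X | X ∈ P ∧ ∃ x ∈ X, ∀ i, x i - α i ∈ Icc 0 D}.Countable →
      ∃ p, ((d + 1 : ℕ) : ℕ∞) ≤ {X | X ∈ P ∧ p ∈ closure X}.encard) := by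
  refine ⟨exists_partition, fun d hd H => ?_⟩
  obtain ⟨P, h1, h2, h3, h4⟩ := exists_partition d
  obtain ⟨p, hp⟩ := H P 1 0 h1 one_pos h3 (h2.mono fun X hX => hX.1)
  have := hp.trans (h4 p)
  have h5 : d + 1 ≤ 2 := by exact_mod_cast this
  omega

end Pool.Agent.Results.MP_671186_gt.Shells
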